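import Pool.Agent.R249.EL.Sys

/-!
# The integrable function with divergent ball and time averages
-/

set_option autoImplicit false

open MeasureTheory Set Filter Topology
open scoped ENNReal

namespace Pool.Agent.R249.EL

attribute [local instance] PiNat.metricSpace

/-- heights -/
noncomputable def cR (n : ℕ) : ℝ := n * Nn n * (1 / 2) ^ n

lemma cR_nonneg (n : ℕ) : 0 ≤ cR n := by unfold cR; positivity

/-- the bumps -/
noncomputable def gE (n : ℕ) (x : ℕ → ℕ) : ℝ≥0∞ :=
  ({x | psi x n = pt n} : Set (ℕ → ℕ)).indicator (fun _ => ENNReal.ofReal (cR n)) x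

/-- the sum of the bumps -/
noncomputable def GE (x : ℕ → ℕ) : ℝ≥0∞ := ∑' n, gE n x

/-- the function -/
noncomputable def fR (x : ℕ → ℕ) : ℝ := (GE x).toReal

lemma meas_pt (n : ℕ) (A : Set (ℕ × ℕ)) : MeasurableSet {x : ℕ → ℕ | psi x n ∈ A} :=
  ((measurable_pi_apply n).comp measurable_psi) (MeasurableSet.of_discrete (s := A))

lemma measurable_gE (n : ℕ) : Measurable (gE n) := by
  unfold gE
  exact measurable_const.indicator (meas_pt n {pt n})

lemma measurable_GE : Measurable GE := Measurable.ennreal_tsum measurable_gE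

lemma lintegral_gE (n : ℕ) : ∫⁻ x, gE n x ∂mu = ENNReal.ofReal (n * (1 / 2) ^ n) := by
  unfold gE
  have hm : MeasurableSet {x : ℕ → ℕ | psi x n = pt n} := meas_pt n {pt n}
  rw [lintegral_indicator hm, setLIntegral_const]
  have h : MeasurePreserving (fun x => psi x n) mu (nu n) :=
    (measurePreserving_eval_infinitePi nu n).comp mp_psi
  have h2 : mu {x | psi x n = pt n} = nu n {pt n} :=
    h.measure_preimage (MeasurableSet.of_discrete (s := {pt n})).nullMeasurableSet
  have h3 : mu {x | psi x n = pt n} = (Nn n : ℝ≥0∞)⁻¹ := by rw [h2, nu_singleton (pt_mem n)]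
  have hN : (0 : ℝ) < Nn n := by exact_mod_cast Nn_pos n
  have h4 : (Nn n : ℝ≥0∞)⁻¹ = ENNReal.ofReal ((Nn n : ℝ)⁻¹) := by
    rw [ENNReal.ofReal_inv_of_pos hN, ENNReal.ofReal_natCast]
  rw [h3, h4, ← ENNReal.ofReal_mul (cR_nonneg n)]
  congr 1
  unfold cR
  field_simp

lemma lintegral_GE : ∫⁻ x, GE x ∂mu ≠ ∞ := by
  unfold GE
  rw [lintegral_tsum (fun n => (measurable_gE n).aemeasurable)]
  simp only [lintegral_gE]
  have hs : Summable (fun n : ℕ => (n : ℝ) * (1 / 2 : ℝ) ^ n) := by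
    have := summable_pow_mul_geometric_of_norm_lt_one (R := ℝ) 1 (r := 1 / 2)
      (by rw [Real.norm_eq_abs, abs_of_pos] <;> norm_num)
    simpa using this
  exact hs.tsum_ofReal_ne_top

lemma integrable_fR : Integrable fR mu :=
  integrable_toReal_of_lintegral_ne_top measurable_GE.aemeasurable lintegral_GE

lemma fR_nonneg (x : ℕ → ℕ) : 0 ≤ fR x := ENNReal.toReal_nonneg

lemma ae_orbit : ∀ᵐ x ∂mu, ∀ j : ℕ, GE (T^[j] x) < ∞ := by
  rw [ae_all_iff]
  intro j
  have h1 : ∀ᵐ x ∂mu, GE x < ∞ := ae_lt_top measurable_GE lintegral_GE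
  exact (mp_T.iterate j).quasiMeasurePreserving.ae h1

lemma fR_lower {x : ℕ → ℕ} {n : ℕ} (hfin : GE x < ∞) (h : psi x n = pt n) : cR n ≤ fR x := by
  unfold fR
  rw [← ENNReal.ofReal_le_iff_le_toReal hfin.ne]
  have h1 : gE n x = ENNReal.ofReal (cR n) := by
    unfold gE
    rw [indicator_of_mem]
    exact h
  rw [← h1]
  exact ENNReal.le_tsum n

lemma avg_lower {z : ℕ → ℕ} {n i : ℕ} (hi : i < In n) (hz : ∀ j : ℕ, GE (T^[j] z) < ∞)
    (hb : psi z n ∈ band n i) :
    cR n / (2 ^ (n + i + 1) : ℕ) ≤ birkhoffAverage ℝ T fR (2 ^ (n + i + 1)) z := by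
  obtain ⟨h1, h2, h3⟩ := hb
  set b := (psi z n).2 with hbd
  have hreg : reg n b = i := reg_eq h2 h3
  have hlt : b < Ln n := band_lt hi h3
  have e : psi (T^[b] z) n = pt n := by
    rw [T_iter, TY_iter, ← tau_iter_pt hlt, hreg, ← h1]
  have h4 := fR_lower (hz b) e
  unfold birkhoffAverage
  rw [smul_eq_mul, div_eq_inv_mul]
  apply mul_le_mul_of_nonneg_left _ (by positivity)
  unfold birkhoffSum
  refine h4.trans ?_
  exact Finset.single_le_sum (f := fun j => fR (T^[j] z)) (fun j _ => fR_nonneg _)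
    (Finset.mem_range.2 h3)

lemma integrable_avg (k : ℕ) : Integrable (birkhoffAverage ℝ T fR k) mu := by
  have h : Integrable (fun x => (k : ℝ)⁻¹ • ∑ j ∈ Finset.range k, fR (T^[j] x)) mu := by
    suffices h0 : Integrable (fun x => ∑ j ∈ Finset.range k, fR (T^[j] x)) mu from
      h0.smul ((k : ℝ)⁻¹)
    apply integrable_finsetSum
    intro j _
    exact (mp_T.iterate j).integrable_comp_of_integrable integrable_fR
  exact h

lemma avg_nonneg (k : ℕ) (z : ℕ → ℕ) : 0 ≤ birkhoffAverage ℝ T fR k z := by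
  unfold birkhoffAverage birkhoffSum
  rw [smul_eq_mul]
  exact mul_nonneg (by positivity) (Finset.sum_nonneg fun j _ => fR_nonneg _)

lemma cyl_eq (x : ℕ → ℕ) (n : ℕ) : PiNat.cylinder x (2 * n + 1)
    = {z | ∀ m < n, psi z m = psi x m} ∩ {z | psi z n ∈ region (x (2 * n))} := by
  ext z
  simp only [PiNat.mem_cylinder_iff, mem_inter_iff, mem_ofPred_eq, region]
  constructor
  · intro h
    refine ⟨fun m hm => ?_, h (2 * n) (by omega)⟩
    unfold psi
    rw [h (2 * m) (by omega), h (2 * m + 1) (by omega)]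
  · rintro ⟨h1, h2⟩ i hi
    rcases Nat.even_or_odd' i with ⟨c, rfl | rfl⟩
    · by_cases hc : c < n
      · exact congrArg Prod.fst (h1 c hc)
      · have : c = n := by omega
        subst this
        exact h2
    · exact congrArg Prod.snd (h1 c (by omega))

lemma U_lower (x : ℕ → ℕ) (hx : ∀ n, psi x n ∈ box n) (n : ℕ) :
    (n : ℝ) / 2 ≤ (mu.real (Metric.ball x (rad (2 * n + 1))))⁻¹ *
      ∫ y in Metric.ball x (rad (2 * n + 1)),
        birkhoffAverage ℝ T fR (2 ^ (n + x (2 * n) + 1)) y ∂mu := by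
  rw [ball_rad]
  set i := x (2 * n) with hi
  have hiI : i < In n := by
    have := hx n
    simp only [box, Finset.mem_product, Finset.mem_range, psi] at this
    exact this.1
  set B := PiNat.cylinder x (2 * n + 1) with hB
  set A := {z : ℕ → ℕ | ∀ m < n, psi z m = psi x m} with hA
  set P := ∏ m ∈ Finset.range n, nu m {psi x m} with hP
  have hBm : MeasurableSet B := measurableSet_cyl _ _
  have hmuB : mu B = P * nu n (region i) := by
    rw [hB, cyl_eq, mu_cyl x n]
  set Z := {z : ℕ → ℕ | psi z n ∈ band n i} with hZ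
  have hZm : MeasurableSet Z := meas_pt n _
  have hmuBZ : mu (B ∩ Z) = P * nu n (band n i) := by
    rw [← mu_cyl x n]
    congr 1
    rw [hB, cyl_eq]
    ext z
    simp only [mem_inter_iff, hZ, mem_ofPred_eq]
    constructor
    · rintro ⟨⟨h1, -⟩, h2⟩; exact ⟨h1, h2⟩
    · rintro ⟨h1, h2⟩; exact ⟨⟨h1, h2.1⟩, h2⟩
  have hP0 : P ≠ 0 := by
    rw [hP, Finset.prod_ne_zero_iff]
    intro m _
    rw [nu_singleton (hx m)]
    exact ENNReal.inv_ne_zero.2 (Nn_ne_top m)
  have hreg0 : nu n (region i) ≠ 0 := by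
    intro h
    have := nu_region hiI
    rw [h, mul_zero] at this
    have h2 := Ln_pos n
    exact (Nat.cast_ne_zero (R := ℝ≥0∞)).2 h2.ne' this.symm
  have hBpos : 0 < mu.real B := by
    rw [Measure.real, ENNReal.toReal_pos_iff]
    refine ⟨?_, measure_lt_top _ _⟩
    rw [hmuB, pos_iff_ne_zero]
    exact mul_ne_zero hP0 hreg0
  have hratio : (Ln n : ℝ) * mu.real (B ∩ Z) = (2 ^ (n + i) : ℕ) * mu.real B := by
    have h : (Ln n : ℝ≥0∞) * mu (B ∩ Z) = (2 ^ (n + i) : ℕ) * mu B := by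
      rw [hmuBZ, hmuB]
      calc (Ln n : ℝ≥0∞) * (P * nu n (band n i)) = P * (Ln n * nu n (band n i)) := by ring
        _ = P * ((2 ^ (n + i) : ℕ) * nu n (region i)) := by rw [band_ratio hiI]
        _ = _ := by ring
    have h2 := congrArg ENNReal.toReal h
    rw [ENNReal.toReal_mul, ENNReal.toReal_mul, ENNReal.toReal_natCast,
      ENNReal.toReal_natCast] at h2
    exact h2
  set k := 2 ^ (n + i + 1) with hk
  have hint : cR n / (k : ℕ) * mu.real (B ∩ Z) ≤ ∫ y in B, birkhoffAverage ℝ T fR k y ∂mu := by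
    have h1 : ∫ y in B, Z.indicator (fun _ => cR n / (k : ℕ)) y ∂mu
        = cR n / (k : ℕ) * mu.real (B ∩ Z) := by
      rw [setIntegral_indicator hZm, setIntegral_const, smul_eq_mul, mul_comm]
    rw [← h1]
    apply setIntegral_mono_ae
    · exact ((integrable_const (cR n / (k : ℕ) : ℝ)).indicator hZm).integrableOn
    · exact (integrable_avg k).integrableOn
    · filter_upwards [ae_orbit] with z hz
      by_cases hzZ : z ∈ Z
      · rw [indicator_of_mem hzZ]
        exact avg_lower hiI hz hzZ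
      · rw [indicator_of_notMem hzZ]
        exact avg_nonneg k z
  have hL : (0 : ℝ) < Ln n := by exact_mod_cast Ln_pos n
  have hBZ : mu.real (B ∩ Z) = (2 ^ (n + i) : ℕ) * mu.real B / Ln n := by
    rw [eq_div_iff hL.ne', mul_comm, hratio]
  calc (n : ℝ) / 2 ≤ n / 2 * 2 ^ n := by
        have : (1 : ℝ) ≤ 2 ^ n := one_le_pow₀ (by norm_num)
        have hn : (0 : ℝ) ≤ n / 2 := by positivity
        nlinarith
    _ = (mu.real B)⁻¹ * (cR n / (k : ℕ) * mu.real (B ∩ Z)) := by
        rw [hBZ]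
        unfold cR Nn In
        rw [hk]
        push_cast
        have h4 : (4 : ℝ) ^ n = 2 ^ n * 2 ^ n := by
          rw [← mul_pow]; norm_num
        have h2 : (1 / 2 : ℝ) ^ n = (2 ^ n)⁻¹ := by rw [one_div, inv_pow]
        rw [h4, h2, pow_succ]
        have hp : (0 : ℝ) < 2 ^ n := by positivity
        have hp2 : (0 : ℝ) < 2 ^ (n + i) := by positivity
        field_simp
    _ ≤ _ := mul_le_mul_of_nonneg_left hint (by positivity)

end Pool.Agent.R249.EL
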