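import Mathlib

/-!
# Maximal inequality on the Baire space with its ultrametric
-/

set_option autoImplicit false

open MeasureTheory Set Filter Topology
open PiNat hiding cylinder
open scoped ENNReal

namespace Pool.Agent.R249.EL

attribute [local instance] PiNat.metricSpace

lemma ball_eq_aux (x : ℕ → ℕ) (r : ℝ) (l : ℕ) (h1 : (1 / 2 : ℝ) ^ l < r)
    (h2 : ∀ m < l, r ≤ (1 / 2 : ℝ) ^ m) : Metric.ball x r = PiNat.cylinder x l := by
  ext y
  rw [Metric.mem_ball]
  constructor
  · intro h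
    by_cases hy : y = x
    · subst hy; exact self_mem_cylinder _ _
    · rw [mem_cylinder_iff_dist_le]
      have h3 : dist y x = (1 / 2 : ℝ) ^ firstDiff y x := dist_eq_of_ne hy
      have h4 : dist y x < r := h
      rw [h3] at h4
      have h5 : l ≤ firstDiff y x := by
        by_contra hh
        push Not at hh
        exact absurd (h2 _ hh) (not_le.2 h4)
      have h6 : (1 / 2 : ℝ) ^ firstDiff y x ≤ (1 / 2 : ℝ) ^ l :=
        pow_le_pow_of_le_one (by norm_num) (by norm_num) h5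
      calc dist y x = (1 / 2 : ℝ) ^ firstDiff y x := h3
        _ ≤ _ := h6
  · intro h
    rw [mem_cylinder_iff_dist_le] at h
    exact lt_of_le_of_lt h h1

lemma ball_eq (x : ℕ → ℕ) (r : ℝ) (hr : 0 < r) : ∃ l, Metric.ball x r = PiNat.cylinder x l := by
  have hex : ∃ l : ℕ, (1 / 2 : ℝ) ^ l < r := exists_pow_lt_of_lt_one hr (by norm_num)
  classical
  refine ⟨Nat.find hex, ball_eq_aux x r _ (Nat.find_spec hex) fun m hm => ?_⟩
  exact not_lt.1 (Nat.find_min hex hm)

/-- a radius for which the ball is the cylinder of depth `l`. -/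
noncomputable def rad (l : ℕ) : ℝ := 3 / 2 * (1 / 2) ^ l

lemma rad_pos (l : ℕ) : 0 < rad l := by unfold rad; positivity

lemma ball_rad (x : ℕ → ℕ) (l : ℕ) : Metric.ball x (rad l) = PiNat.cylinder x l := by
  apply ball_eq_aux
  · unfold rad
    have : (0 : ℝ) < (1 / 2) ^ l := by positivity
    linarith
  · intro m hm
    have h1 : (1 / 2 : ℝ) ^ l ≤ (1 / 2 : ℝ) ^ (m + 1) :=
      pow_le_pow_of_le_one (by norm_num) (by norm_num) hm
    have h2 : (0 : ℝ) < (1 / 2) ^ m := by positivity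
    unfold rad
    rw [pow_succ] at h1
    linarith

lemma rad_tendsto : Tendsto rad atTop (𝓝 0) := by
  have h := (tendsto_pow_atTop_nhds_zero_of_lt_one (r := (1 / 2 : ℝ)) (by norm_num)
    (by norm_num)).const_mul (3 / 2 : ℝ)
  have e : rad = fun n => 3 / 2 * (1 / 2 : ℝ) ^ n := rfl
  rw [e]
  simpa using h

lemma countable_cyl : {s : Set (ℕ → ℕ) | ∃ x l, s = PiNat.cylinder x l}.Countable := by
  have h : {s : Set (ℕ → ℕ) | ∃ x l, s = PiNat.cylinder x l} ⊆
      range (fun a : List ℕ => {y : ℕ → ℕ | res y a.length = a}) := by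
    rintro s ⟨x, l, rfl⟩
    refine ⟨res x l, ?_⟩
    rw [cylinder_eq_res]
    simp
  exact (countable_range _).mono h

lemma measurableSet_cyl (x : ℕ → ℕ) (l : ℕ) : MeasurableSet (PiNat.cylinder x l) := by
  rw [cylinder_eq_pi]
  exact MeasurableSet.pi (Finset.countable_toSet _) fun i _ => trivial

/-- The weak type inequality for the cylinder maximal function. -/
theorem weak (μ : Measure (ℕ → ℕ)) (g : (ℕ → ℕ) → ℝ≥0∞) (ε : ℝ≥0∞) :
    ε * μ {x | ∃ l, ε * μ (PiNat.cylinder x l) < ∫⁻ y in PiNat.cylinder x l, g y ∂μ} ≤ ∫⁻ y, g y ∂μ := by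
  classical
  set S := {x : ℕ → ℕ | ∃ l, ε * μ (PiNat.cylinder x l) < ∫⁻ y in PiNat.cylinder x l, g y ∂μ} with hS
  have key : ∀ x ∈ S, ∃ l, ε * μ (PiNat.cylinder x l) < ∫⁻ y in PiNat.cylinder x l, g y ∂μ ∧
      ∀ m < l, ¬ (ε * μ (PiNat.cylinder x m) < ∫⁻ y in PiNat.cylinder x m, g y ∂μ) := by
    intro x hx
    have hx' : ∃ l, ε * μ (PiNat.cylinder x l) < ∫⁻ y in PiNat.cylinder x l, g y ∂μ := hx
    exact ⟨Nat.find hx', Nat.find_spec hx', fun m hm => Nat.find_min hx' hm⟩
  choose! L hL1 hL2 using key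
  set C : Set (Set (ℕ → ℕ)) := (fun x => PiNat.cylinder x (L x)) '' S with hC
  have hCc : C.Countable := countable_cyl.mono (by
    rintro s ⟨x, -, rfl⟩
    exact ⟨x, L x, rfl⟩)
  have hdis : C.PairwiseDisjoint id := by
    have main : ∀ x ∈ S, ∀ y ∈ S, L x ≤ L y → ∀ z, z ∈ PiNat.cylinder x (L x) → z ∈ PiNat.cylinder y (L y) →
        PiNat.cylinder x (L x) = PiNat.cylinder y (L y) := by
      intro x hx y hy hle z hzx hzy
      have h1 : PiNat.cylinder z (L x) = PiNat.cylinder x (L x) := mem_cylinder_iff_eq.1 hzx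
      have h2 : PiNat.cylinder z (L x) = PiNat.cylinder y (L x) :=
        mem_cylinder_iff_eq.1 (cylinder_anti y hle hzy)
      have h3 : PiNat.cylinder x (L x) = PiNat.cylinder y (L x) := h1.symm.trans h2
      have h4 : L y ≤ L x := by
        by_contra hh
        push Not at hh
        apply hL2 y hy (L x) hh
        rw [← h3]
        exact hL1 x hx
      have h5 : L x = L y := le_antisymm hle h4
      rw [h3, h5]
    rintro s ⟨x, hx, rfl⟩ t ⟨y, hy, rfl⟩ hne
    rw [Function.onFun, Set.disjoint_left]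
    intro z hzx hzy
    apply hne
    rcases le_total (L x) (L y) with h | h
    · exact main x hx y hy h z hzx hzy
    · exact (main y hy x hx h z hzy hzx).symm
  have hmeas : ∀ s ∈ C, MeasurableSet (id s) := by
    rintro s ⟨x, -, rfl⟩
    exact measurableSet_cyl _ _
  have hsub : S ⊆ ⋃ s ∈ C, id s := by
    intro x hx
    simp only [mem_iUnion]
    exact ⟨PiNat.cylinder x (L x), ⟨x, hx, rfl⟩, self_mem_cylinder _ _⟩
  calc ε * μ S ≤ ε * μ (⋃ s ∈ C, id s) := by gcongr
    _ = ε * ∑' s : C, μ (id (s : Set (ℕ → ℕ))) := by rw [measure_biUnion hCc hdis hmeas]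
    _ = ∑' s : C, ε * μ (id (s : Set (ℕ → ℕ))) := by rw [ENNReal.tsum_mul_left]
    _ ≤ ∑' s : C, ∫⁻ y in (id (s : Set (ℕ → ℕ))), g y ∂μ := by
        refine ENNReal.tsum_le_tsum fun s => ?_
        obtain ⟨x, hx, hxs⟩ := s.2
        have := hL1 x hx
        simp only [id]
        rw [← hxs]
        exact this.le
    _ = ∫⁻ y in ⋃ s ∈ C, id s, g y ∂μ := (lintegral_biUnion hCc hmeas hdis _).symm
    _ ≤ ∫⁻ y, g y ∂μ := setLIntegral_le_lintegral _ _

end Pool.Agent.R249.EL
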