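import Pool.Agent.R249.EL.HL

/-!
# A product of finite cyclic permutations
-/

set_option autoImplicit false

open MeasureTheory Set Filter Topology
open scoped ENNReal

namespace Pool.Agent.R249.EL

/-- number of regions -/
def In (n : ℕ) : ℕ := 4 ^ n
/-- size of a region (and length of the cycle) -/
def Ln (n : ℕ) : ℕ := 2 ^ (n + 4 ^ n)

lemma In_pos (n : ℕ) : 0 < In n := by unfold In; positivity
lemma Ln_pos (n : ℕ) : 0 < Ln n := by unfold Ln; positivity

/-- the region of the `b`-th point of the cycle -/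
def reg (n b : ℕ) : ℕ := Nat.log 2 b - n
/-- the predecessor in the cyclic order -/
def sg (n b : ℕ) : ℕ := if b = 0 then Ln n - 1 else b - 1

/-- the box -/
def box (n : ℕ) : Finset (ℕ × ℕ) := Finset.range (In n) ×ˢ Finset.range (Ln n)

/-- the cycle -/
def tau (n : ℕ) (z : ℕ × ℕ) : ℕ × ℕ :=
  if z.2 < Ln n ∧ z.1 = reg n z.2 then (reg n (sg n z.2), sg n z.2) else z

lemma reg_lt {n b : ℕ} (hb : b < Ln n) : reg n b < In n := by
  unfold reg
  have h : Nat.log 2 b < n + 4 ^ n := Nat.log_lt_of_lt_pow' (by positivity) hb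
  have h4 : 0 < 4 ^ n := by positivity
  unfold In
  omega

lemma sg_lt {n b : ℕ} (hb : b < Ln n) : sg n b < Ln n := by
  unfold sg
  have := Ln_pos n
  split_ifs <;> omega

lemma sg_inj {n a b : ℕ} (ha : a < Ln n) (hb : b < Ln n) (h : sg n a = sg n b) : a = b := by
  unfold sg at h
  have := Ln_pos n
  split_ifs at h <;> omega

lemma tau_box {n : ℕ} {z : ℕ × ℕ} (hz : z ∈ box n) : tau n z ∈ box n := by
  unfold tau
  split_ifs with h
  · simp only [box, Finset.mem_product, Finset.mem_range]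
    exact ⟨reg_lt (sg_lt h.1), sg_lt h.1⟩
  · exact hz

lemma tau_inj (n : ℕ) : Function.Injective (tau n) := by
  rintro ⟨a, b⟩ ⟨a', b'⟩ h
  unfold tau at h
  simp only at h
  split_ifs at h with h1 h2 h2
  · have h3 := sg_inj h1.1 h2.1 (congrArg Prod.snd h)
    subst h3
    rw [h1.2, h2.2]
  · exfalso
    apply h2
    have e1 := congrArg Prod.fst h
    have e2 := congrArg Prod.snd h
    simp only at e1 e2
    rw [← e1, ← e2]
    exact ⟨sg_lt h1.1, rfl⟩
  · exfalso
    apply h1
    have e1 := congrArg Prod.fst h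
    have e2 := congrArg Prod.snd h
    simp only at e1 e2
    rw [e1, e2]
    exact ⟨sg_lt h2.1, rfl⟩
  · exact h

lemma tau_surjOn (n : ℕ) : Set.SurjOn (tau n) (box n : Set (ℕ × ℕ)) (box n : Set (ℕ × ℕ)) := by
  apply Finset.surjOn_of_injOn_of_card_le (tau n)
  · intro z hz
    exact tau_box hz
  · exact (tau_inj n).injOn
  · exact le_rfl

/-- the size of the box -/
def Nn (n : ℕ) : ℕ := In n * Ln n

lemma Nn_pos (n : ℕ) : 0 < Nn n := Nat.mul_pos (In_pos n) (Ln_pos n)

/-- uniform measure on the box -/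
noncomputable def nu (n : ℕ) : Measure (ℕ × ℕ) :=
  (Nn n : ℝ≥0∞)⁻¹ • ∑ z ∈ box n, Measure.dirac z

lemma nu_apply (n : ℕ) (A : Set (ℕ × ℕ)) :
    nu n A = (Nn n : ℝ≥0∞)⁻¹ * ∑ z ∈ box n, A.indicator 1 z := by
  unfold nu
  rw [Measure.smul_apply, Measure.finsetSum_apply, smul_eq_mul]
  congr 1
  refine Finset.sum_congr rfl fun z _ => ?_
  rw [Measure.dirac_apply]

lemma Nn_ne (n : ℕ) : (Nn n : ℝ≥0∞) ≠ 0 := by
  have := Nn_pos n
  exact_mod_cast this.ne'

lemma Nn_ne_top (n : ℕ) : (Nn n : ℝ≥0∞) ≠ ∞ := ENNReal.natCast_ne_top _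

lemma Nn_nu (n : ℕ) (A : Set (ℕ × ℕ)) :
    (Nn n : ℝ≥0∞) * nu n A = ∑ z ∈ box n, A.indicator 1 z := by
  rw [nu_apply, ← mul_assoc, ENNReal.mul_inv_cancel (Nn_ne n) (Nn_ne_top n), one_mul]

instance (n : ℕ) : IsProbabilityMeasure (nu n) := by
  constructor
  rw [nu_apply]
  simp only [indicator_univ, Pi.one_apply, Finset.sum_const, nsmul_eq_mul, mul_one]
  have : (box n).card = Nn n := by simp [box, Nn]
  rw [this]
  exact ENNReal.inv_mul_cancel (Nn_ne n) (Nn_ne_top n)

lemma nu_map (n : ℕ) : (nu n).map (tau n) = nu n := by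
  ext A hA
  rw [Measure.map_apply (measurable_of_countable _) hA, nu_apply, nu_apply]
  congr 1
  refine Finset.sum_nbij (tau n) (fun z hz => tau_box hz) (tau_inj n).injOn (tau_surjOn n) ?_
  intro z _
  by_cases h : tau n z ∈ A
  · rw [indicator_of_mem h, indicator_of_mem (show z ∈ tau n ⁻¹' A from h)]; rfl
  · rw [indicator_of_notMem h, indicator_of_notMem (show z ∉ tau n ⁻¹' A from h)]

lemma nu_box (n : ℕ) : ∀ᵐ z ∂(nu n), z ∈ box n := by
  rw [ae_iff, nu_apply]
  have : ∑ z ∈ box n, ({a | a ∉ box n} : Set (ℕ × ℕ)).indicator (1 : ℕ × ℕ → ℝ≥0∞) z = 0 := by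
    refine Finset.sum_eq_zero fun z hz => ?_
    rw [indicator_of_notMem]
    intro h
    exact h hz
  rw [this, mul_zero]

lemma nu_singleton {n : ℕ} {z : ℕ × ℕ} (hz : z ∈ box n) : nu n {z} = (Nn n : ℝ≥0∞)⁻¹ := by
  rw [nu_apply]
  have : ∑ w ∈ box n, ({z} : Set (ℕ × ℕ)).indicator (1 : ℕ × ℕ → ℝ≥0∞) w = 1 := by
    rw [Finset.sum_eq_single z]
    · rw [indicator_of_mem (mem_singleton z)]; rfl
    · intro w _ hw
      rw [indicator_of_notMem]
      exact hw
    · intro h; exact absurd hz h
  rw [this, mul_one]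

/-- The distinguished point -/
def pt (n : ℕ) : ℕ × ℕ := (reg n 0, 0)

lemma pt_mem (n : ℕ) : pt n ∈ box n := by
  simp only [box, pt, Finset.mem_product, Finset.mem_range]
  exact ⟨reg_lt (Ln_pos n), Ln_pos n⟩

lemma tau_iter {n : ℕ} : ∀ j b : ℕ, b + j < Ln n →
    (tau n)^[j] (reg n (b + j), b + j) = (reg n b, b) := by
  intro j
  induction j with
  | zero => intro b _; simp
  | succ j ih =>
    intro b hb
    rw [Function.iterate_succ_apply]
    have h1 : tau n (reg n (b + (j + 1)), b + (j + 1)) = (reg n (b + j), b + j) := by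
      unfold tau
      rw [if_pos ⟨hb, rfl⟩]
      simp only [sg]
      rw [if_neg (by omega)]
      have : b + (j + 1) - 1 = b + j := by omega
      rw [this]
    rw [h1]
    exact ih b (by omega)

lemma tau_iter_pt {n b : ℕ} (hb : b < Ln n) : (tau n)^[b] (reg n b, b) = pt n := by
  have := tau_iter (n := n) b 0 (by omega)
  simpa [pt] using this

lemma reg_eq {n i b : ℕ} (h1 : 2 ^ (n + i) ≤ b) (h2 : b < 2 ^ (n + i + 1)) : reg n b = i := by
  unfold reg
  have : Nat.log 2 b = n + i := Nat.log_eq_of_pow_le_of_lt_pow h1 h2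
  omega

lemma band_lt {n i b : ℕ} (hi : i < In n) (h2 : b < 2 ^ (n + i + 1)) : b < Ln n := by
  unfold Ln
  unfold In at hi
  refine lt_of_lt_of_le h2 (Nat.pow_le_pow_right (by norm_num) (by omega))

/-- the band in the region `i` -/
def band (n i : ℕ) : Set (ℕ × ℕ) := {z | z.1 = i ∧ 2 ^ (n + i) ≤ z.2 ∧ z.2 < 2 ^ (n + i + 1)}

/-- the region `i` -/
def region (i : ℕ) : Set (ℕ × ℕ) := {z | z.1 = i}

lemma nu_region {n i : ℕ} (hi : i < In n) : (Nn n : ℝ≥0∞) * nu n (region i) = Ln n := by
  rw [Nn_nu]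
  unfold box
  rw [Finset.sum_product]
  rw [Finset.sum_eq_single i]
  · have : ∀ b ∈ Finset.range (Ln n), (region i).indicator (1 : ℕ × ℕ → ℝ≥0∞) (i, b) = 1 := by
      intro b _
      rw [indicator_of_mem (show ((i, b) : ℕ × ℕ) ∈ region i from rfl)]; rfl
    rw [Finset.sum_congr rfl this]
    simp
  · intro a _ ha
    refine Finset.sum_eq_zero fun b _ => ?_
    rw [indicator_of_notMem]
    exact ha
  · intro h
    exact absurd (Finset.mem_range.2 hi) h

lemma nu_band {n i : ℕ} (hi : i < In n) :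
    (Nn n : ℝ≥0∞) * nu n (band n i) = (2 ^ (n + i) : ℕ) := by
  rw [Nn_nu]
  unfold box
  rw [Finset.sum_product]
  rw [Finset.sum_eq_single i]
  · have h0 : ∑ b ∈ Finset.range (Ln n), (band n i).indicator (1 : ℕ × ℕ → ℝ≥0∞) (i, b)
        = ∑ b ∈ Finset.Ico (2 ^ (n + i)) (2 ^ (n + i + 1)), 1 := by
      symm
      have hsub : Finset.Ico (2 ^ (n + i)) (2 ^ (n + i + 1)) ⊆ Finset.range (Ln n) := by
        intro b hb
        rw [Finset.mem_Ico] at hb
        exact Finset.mem_range.2 (band_lt hi hb.2)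
      rw [← Finset.sum_subset hsub (f := fun b =>
        (band n i).indicator (1 : ℕ × ℕ → ℝ≥0∞) (i, b))]
      · refine Finset.sum_congr rfl fun b hb => ?_
        rw [Finset.mem_Ico] at hb
        rw [indicator_of_mem (show ((i, b) : ℕ × ℕ) ∈ band n i from ⟨rfl, hb⟩)]; rfl
      · intro b _ hb
        rw [indicator_of_notMem]
        intro h
        exact hb (Finset.mem_Ico.2 h.2)
    rw [h0, Finset.sum_const, Nat.card_Ico, nsmul_eq_mul, mul_one]
    congr 1
    rw [pow_succ]
    omega
  · intro a _ ha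
    refine Finset.sum_eq_zero fun b _ => ?_
    rw [indicator_of_notMem]
    intro h
    exact ha h.1
  · intro h
    exact absurd (Finset.mem_range.2 hi) h

lemma band_ratio {n i : ℕ} (hi : i < In n) :
    (Ln n : ℝ≥0∞) * nu n (band n i) = (2 ^ (n + i) : ℕ) * nu n (region i) := by
  have h1 := nu_region hi
  have h2 := nu_band hi
  have h3 : (Nn n : ℝ≥0∞) * ((Ln n : ℝ≥0∞) * nu n (band n i))
      = (Nn n : ℝ≥0∞) * ((2 ^ (n + i) : ℕ) * nu n (region i)) := by
    calc (Nn n : ℝ≥0∞) * ((Ln n : ℝ≥0∞) * nu n (band n i))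
        = Ln n * ((Nn n : ℝ≥0∞) * nu n (band n i)) := by ring
      _ = (2 ^ (n + i) : ℕ) * Ln n := by rw [h2]; ring
      _ = (2 ^ (n + i) : ℕ) * ((Nn n : ℝ≥0∞) * nu n (region i)) := by rw [h1]
      _ = _ := by ring
  exact (ENNReal.mul_right_inj (Nn_ne n) (Nn_ne_top n)).1 h3

/-! ### the space -/

/-- from pairs to a single sequence -/
def phi (y : ℕ → ℕ × ℕ) (k : ℕ) : ℕ := if k % 2 = 0 then (y (k / 2)).1 else (y (k / 2)).2
/-- from a sequence to pairs -/
def psi (x : ℕ → ℕ) (n : ℕ) : ℕ × ℕ := (x (2 * n), x (2 * n + 1))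

lemma phi_even (y : ℕ → ℕ × ℕ) (n : ℕ) : phi y (2 * n) = (y n).1 := by
  unfold phi
  rw [if_pos (by omega)]
  congr 2
  omega

lemma phi_odd (y : ℕ → ℕ × ℕ) (n : ℕ) : phi y (2 * n + 1) = (y n).2 := by
  unfold phi
  rw [if_neg (by omega)]
  congr 2
  omega

lemma psi_phi (y : ℕ → ℕ × ℕ) : psi (phi y) = y := by
  funext n
  simp [psi, phi_even, phi_odd]

lemma phi_psi (x : ℕ → ℕ) : phi (psi x) = x := by
  funext k
  unfold phi psi
  split_ifs with h
  · show x (2 * (k / 2)) = x k
    congr 1; omega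
  · show x (2 * (k / 2) + 1) = x k
    congr 1; omega

lemma measurable_phi : Measurable phi := by
  rw [measurable_pi_iff]
  intro k
  unfold phi
  split_ifs
  · exact measurable_fst.comp (measurable_pi_apply _)
  · exact measurable_snd.comp (measurable_pi_apply _)

lemma measurable_psi : Measurable psi := by
  rw [measurable_pi_iff]
  intro n
  exact (measurable_pi_apply _).prodMk (measurable_pi_apply _)

/-- the product map -/
def TY (y : ℕ → ℕ × ℕ) (n : ℕ) : ℕ × ℕ := tau n (y n)

lemma TY_iter (j : ℕ) (y : ℕ → ℕ × ℕ) (n : ℕ) : (TY^[j] y) n = (tau n)^[j] (y n) := by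
  induction j with
  | zero => rfl
  | succ j ih =>
    rw [Function.iterate_succ_apply', Function.iterate_succ_apply', ← ih]
    rfl

lemma measurable_TY : Measurable TY := by
  rw [measurable_pi_iff]
  intro n
  exact (measurable_of_countable (tau n)).comp (measurable_pi_apply n)

/-- the product measure -/
noncomputable def muY : Measure (ℕ → ℕ × ℕ) := Measure.infinitePi nu

instance : IsProbabilityMeasure muY := by unfold muY; infer_instance

lemma muY_map : muY.map TY = muY := by
  unfold muY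
  have h := Measure.infinitePi_map_pi (μ := nu) (f := fun n => tau n)
    (fun n => measurable_of_countable (tau n))
  simp only [nu_map] at h
  exact h

/-- the measure on the Baire space -/
noncomputable def mu : Measure (ℕ → ℕ) := muY.map phi

instance : IsProbabilityMeasure mu := by
  unfold mu
  exact Measure.isProbabilityMeasure_map measurable_phi.aemeasurable

/-- the transformation -/
def T (x : ℕ → ℕ) : ℕ → ℕ := phi (TY (psi x))

lemma measurable_T : Measurable T := measurable_phi.comp (measurable_TY.comp measurable_psi)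

lemma T_iter (j : ℕ) (x : ℕ → ℕ) : psi (T^[j] x) = TY^[j] (psi x) := by
  induction j with
  | zero => rfl
  | succ j ih =>
    rw [Function.iterate_succ_apply', Function.iterate_succ_apply', ← ih]
    unfold T
    rw [psi_phi]

lemma mp_psi : MeasurePreserving psi mu muY := by
  refine ⟨measurable_psi, ?_⟩
  unfold mu
  rw [Measure.map_map measurable_psi measurable_phi]
  have : psi ∘ phi = id := funext psi_phi
  rw [this, Measure.map_id]

lemma mp_T : MeasurePreserving T mu mu := by
  have h1 : MeasurePreserving TY muY muY := ⟨measurable_TY, muY_map⟩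
  have h2 : MeasurePreserving phi muY mu := ⟨measurable_phi, rfl⟩
  exact h2.comp (h1.comp mp_psi)

lemma ae_box : ∀ᵐ x ∂mu, ∀ n, psi x n ∈ box n := by
  rw [ae_all_iff]
  intro n
  have h : MeasurePreserving (fun x => psi x n) mu (nu n) :=
    (measurePreserving_eval_infinitePi nu n).comp mp_psi
  exact h.quasiMeasurePreserving.ae (nu_box n)

lemma mu_cyl (x : ℕ → ℕ) (n : ℕ) (A : Set (ℕ × ℕ)) :
    mu ({z | ∀ m < n, psi z m = psi x m} ∩ {z | psi z n ∈ A})
      = (∏ m ∈ Finset.range n, nu m {psi x m}) * nu n A := by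
  have hmeas : MeasurableSet ({z | ∀ m < n, psi z m = psi x m} ∩ {z | psi z n ∈ A}) := by
    apply MeasurableSet.inter
    · have : {z : ℕ → ℕ | ∀ m < n, psi z m = psi x m}
          = ⋂ m, ⋂ (_ : m < n), {z | psi z m = psi x m} := by
        ext z; simp
      rw [this]
      refine MeasurableSet.iInter fun m => MeasurableSet.iInter fun _ => ?_
      exact ((measurable_pi_apply m).comp measurable_psi) (MeasurableSet.singleton (psi x m))
    · exact ((measurable_pi_apply n).comp measurable_psi) (MeasurableSet.of_discrete (s := A))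
  unfold mu
  rw [Measure.map_apply measurable_phi hmeas]
  set t : ℕ → Set (ℕ × ℕ) := fun m => if m < n then {psi x m} else A with ht
  have e : phi ⁻¹' ({z | ∀ m < n, psi z m = psi x m} ∩ {z | psi z n ∈ A})
      = Set.pi (Finset.range (n + 1)) t := by
    ext y
    simp only [mem_preimage, mem_inter_iff, mem_ofPred_eq, psi_phi, Set.mem_pi, Finset.coe_range,
      mem_Iio, ht]
    constructor
    · rintro ⟨h1, h2⟩ m hm
      by_cases hmn : m < n
      · rw [if_pos hmn]; exact h1 m hmn
      · rw [if_neg hmn]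
        have : m = n := by omega
        rw [this]; exact h2
    · intro h
      refine ⟨fun m hm => ?_, ?_⟩
      · have := h m (by omega)
        rwa [if_pos hm] at this
      · have := h n (by omega)
        rwa [if_neg (lt_irrefl n)] at this
  rw [e]
  unfold muY
  rw [Measure.infinitePi_pi _ (fun _ _ => MeasurableSet.of_discrete), Finset.prod_range_succ]
  congr 1
  · refine Finset.prod_congr rfl fun m hm => ?_
    simp only [ht]
    rw [if_pos (Finset.mem_range.1 hm)]
  · simp only [ht]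
    rw [if_neg (lt_irrefl n)]

end Pool.Agent.R249.EL
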